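import Mathlib
import Pool.Agent.J6H45.RT.Curves
import Pool.Agent.J6H45.RT.Core

/-!
# The elliptic Schanuel conjecture at all roots of almost all integral polynomials, for arbitrary analytic curves

Let `Ω` be a lattice with arbitrary complex invariants and let `p_1, …, p_r` be analytic functions on a connected open set
`U` with values outside `Ω`, such that no nontrivial combination of them with coefficients in `End(ℂ / Ω)` is constant
(`Curve` of the starting file `SmallDiscs` of this problem). There is no other condition; nothing needs to be algebraic.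
We consider the functions `p_i`, `℘(p_i)`, `ζ(p_i)` at ALL the roots `z_1, …, z_g` of an integral polynomial of degree `g`
(so, for an irreducible polynomial, at all the conjugates of an algebraic number of degree `g`); only the roots outside
`U` are omitted. The elliptic Schanuel conjecture, applied to the `r g` numbers `p_i(z_m)`, predicts at least `2 r g`
algebraically independent numbers among `g₂`, `g₃`, `p_i(z_m)`, `℘(p_i(z_m))`, `ζ(p_i(z_m))`, if the `p_i(z_m)` are linearly
independent.

We prove: there are `2 r` functions among the `3 r` ones such that for every degree `g` and for almost all integral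
polynomials of degree `g` with coefficients at most `T` the values of these functions at all the roots together satisfy
no algebraic relation over number fields whose degree and whose field degree is at most `ω(T)` and whose height is at
most `T ^ ω(T)`, where `ω(T) → ∞`; the coefficients of the relations may contain arbitrary given complex numbers
`ξ_0, ξ_1, …`, for instance the monomials in `g₂`, `g₃`, the periods and the quasi-periods. For the polynomials whose roots
are in a fixed compact position (at most `R` in absolute value, at distance at least `η` from each other and from the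
complement of `U`) there are at most `C T ^ (g + ε)` exceptions, for every `ε > 0` (of about `T ^ (g + 1)`), for relations of
bounded degree.

For polynomials `p_i` and the `2 r` values `℘(p_i)`, `ζ(p_i)` the first part is in the starting file
`MP_4aec10_nt.AllRootsOfPolynomials`; here the `p_i` are arbitrary, for instance `p_i` can be elliptic logarithms of
algebraic points.

The proof is an application of `Pool.Agent.X255.RH.main_all` (values of algebraically independent functions at the roots
of almost all polynomials) and of `Pool.Agent.Y776.Cv.fix_sub` (Ax's theorem for elliptic curves and their extensions by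
vector groups).
-/

set_option autoImplicit false

open Polynomial Filter Topology NumberField
open Pool.Agent

namespace Pool.Agent.Results.MP_2ad15a_nt.AllRootsOfPolynomials

open Pool.Agent.Results.MP_2ad15a_nt.SmallDiscs (Curve Name value)

/-- The integral vectors `a = (a_0, …, a_g)` with `|a_i| ≤ T`. -/
noncomputable def box (g T : ℕ) : Finset (Fin (g + 1) → ℤ) := Fintype.piFinset fun _ => Finset.Icc (-(T : ℤ)) (T : ℤ)

/-- The polynomial `a_0 + a_1 x + … + a_g x^g`. -/
noncomputable def poly {g : ℕ} (a : Fin (g + 1) → ℤ) : ℂ[X] := ∑ i, C (a i : ℂ) * X ^ (i : ℕ)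

/-- The roots in `K` of the polynomial with the coefficients `a`. -/
noncomputable def roots {g : ℕ} (K : Set ℂ) (a : Fin (g + 1) → ℤ) : Finset ℂ := by
  classical exact (poly a).roots.toFinset.filter fun z => z ∈ K

/-- The distance of the points `z` of `K` from the complement of `U` is bounded below by a positive constant, or by the
distance of `z` from a closed discrete set, or (for `z` not real) by `|Im z|`. This is true if `K` is a compact subset of
`U`, and if `K = U` is the upper half-plane, the whole plane, or the complement of a closed discrete set. -/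
def Tame (K U : Set ℂ) : Prop :=
  ∃ (S : Set ℂ) (c : ℝ), 0 < c ∧ (∀ R : ℝ, (S ∩ Metric.closedBall 0 R).Finite) ∧
    ∀ z ∈ K, ∀ w, w ∉ U → (∃ p ∈ S, ‖z - p‖ ≤ ‖z - w‖) ∨ (z.im ≠ 0 ∧ |z.im| ≤ ‖z - w‖) ∨ c ≤ ‖z - w‖

/-- The numbers `x q` satisfy no relation of degree at most `k` in each of them with coefficients `∑_{b < k} ξ_b c_b`, where the `c_b` are
integers of a number field of degree at most `k` all of whose conjugates are at most `T ^ k`, except the relations all of whose coefficients
vanish. -/
def NoRelation {Q : Type} [Fintype Q] [DecidableEq Q] (ξ : ℕ → ℂ) (k : ℕ) (T : ℝ) (x : Q → ℂ) : Prop :=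
  ∀ (F : Type) [Field F] [NumberField F], Module.finrank ℚ F ≤ k → ∀ (io : F →+* ℂ)
    (c : (Q → Fin (k + 1)) → Fin k → 𝓞 F), (∀ l b (φ : F →+* ℂ), ‖φ (c l b : F)‖ ≤ T ^ k) →
    ∑ l, (∑ b : Fin k, ξ b * io (c l b : F)) * ∏ q, x q ^ (l q : ℕ) = 0 → ∀ l, ∑ b : Fin k, ξ b * io (c l b : F) = 0

/-- There is no relation between the values of the functions `f_i` at all the roots in `K` of the polynomial with the
coefficients `a` together. -/
def Unrelated {g N : ℕ} (K : Set ℂ) (f : Fin N → ℂ → ℂ) (ξ : ℕ → ℂ) (k : ℕ) (T : ℝ) (a : Fin (g + 1) → ℤ) : Prop :=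
  NoRelation ξ k T fun q : {x // x ∈ roots K a} × Fin N => f q.2 q.1

/-- The polynomial with the coefficients `a` has degree `g` and simple roots, and there is no relation between the
values of the functions `f_i` at all its roots in `K` together. -/
def Good {g N : ℕ} (K : Set ℂ) (f : Fin N → ℂ → ℂ) (ξ : ℕ → ℂ) (k : ℕ) (T : ℝ) (a : Fin (g + 1) → ℤ) : Prop :=
  a (Fin.last g) ≠ 0 ∧ (poly a).Separable ∧ Unrelated K f ξ k T a

/-- The polynomial with the coefficients `a` has degree `g`, its roots are simple, of absolute value at most `R`, at
distance at least `η` from each other, and the roots in `K` are at distance at least `η` from the complement of `U`. -/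
def Position {g : ℕ} (K U : Set ℂ) (R η : ℝ) (a : Fin (g + 1) → ℤ) : Prop :=
  a (Fin.last g) ≠ 0 ∧ (poly a).Separable ∧ ∀ z, (poly a).eval z = 0 → ‖z‖ ≤ R ∧
    (∀ w, (poly a).eval w = 0 → w ≠ z → η ≤ ‖z - w‖) ∧ (z ∈ K → Metric.ball z η ⊆ U)

open scoped Classical in
/-- **All roots of almost all polynomials.** There are `2 r` different functions `e_k` among the `3 r` functions such that
for every degree `g ≥ 1` and all complex numbers `ξ_0, ξ_1, …`:
(1) for all tame subsets `K_0, K_1, …` of `U` there is a function `ω(T) → ∞` such that among the `(2 T + 1)^(g + 1)` integral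
polynomials with coefficients at most `T` at most the proportion `1 / ω(T)` is not good (for the set `K_(ω(T))`, relations
of degree `ω(T)` and height `T ^ ω(T)`);
(2) for all `K`, `k`, `R`, `η > 0`, `ε > 0` the number of the polynomials in the position `(K, R, η)` with coefficients
at most `T` whose values are related is at most `C T ^ (g + ε)`.
Moreover compact subsets of open sets are tame, and so is the complement of a closed discrete set. -/
theorem result :
    (∀ {r : ℕ} (U : Set ℂ) (L : PeriodPair) (p : Fin r → ℂ → ℂ), Curve U L p →
      ∃ e : Fin (2 * r) → Name r, Function.Injective e ∧ ∀ (g : ℕ), 0 < g → ∀ ξ : ℕ → ℂ,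
        (∀ K : ℕ → Set ℂ, (∀ k, Tame (K k) U) →
          ∃ ω : ℕ → ℕ, Tendsto ω atTop atTop ∧ Monotone ω ∧ ∀ T : ℕ,
            ω T * ((box g T).filter fun a =>
              ¬ Good (K (ω T)) (fun k z => value L p z (e k)) ξ (ω T) T a).card ≤ (box g T).card) ∧
        ∀ (K : Set ℂ) (k : ℕ) (R η ε : ℝ), 0 < η → 0 < ε → ∃ C : ℝ, ∀ T : ℕ, 1 ≤ T →
          (((box g T).filter fun a => Position K U R η a ∧
            ¬ Unrelated K (fun k z => value L p z (e k)) ξ k T a).card : ℝ) ≤ C * (T : ℝ) ^ ((g : ℝ) + ε)) ∧
    (∀ K U : Set ℂ, IsCompact K → IsOpen U → K ⊆ U → Tame K U) ∧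
    (∀ S : Set ℂ, (∀ R : ℝ, (S ∩ Metric.closedBall 0 R).Finite) → Tame Sᶜ Sᶜ) := by
  refine ⟨fun {r} U L p h => ?_, fun K U hK hU hKU => J6H45.RT.tame_compact hK hU hKU,
    fun S hS => X255.RH.tame_of_discrete hS⟩
  obtain ⟨e, he, han, hL⟩ := J6H45.RT.elliptic_loc h
  have hind : X255.RH.Indep U (fun (k : Fin (2 * r)) z => value L p z (e k)) := by
    obtain ⟨t, ht⟩ := h.nonempty
    exact J6H45.RT.indep_of_loc h.isOpen ht (hL t ht)
  refine ⟨e, he, fun g hg ξ => ⟨fun K hK => ?_, fun K k R η ε hη hε => ?_⟩⟩
  · exact X255.RH.main_all (f := fun (k : Fin (2 * r)) z => value L p z (e k)) hg h.isPreconnected h.isOpen K hK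
      han hind ξ
  · exact X255.RH.main_eps (f := fun (k : Fin (2 * r)) z => value L p z (e k)) hg h.isPreconnected h.isOpen
      han hind K ξ k R η ε hη hε

end Pool.Agent.Results.MP_2ad15a_nt.AllRootsOfPolynomials
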