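import Pool.Agent.J6H45.RT.Curves
import Pool.Agent.J6H45.RT.NearC

/-!
# The elliptic Schanuel conjecture on countably many arbitrary analytic curves, at ALL algebraic numbers close to any number
# outside a set of dimension zero

We consider countably many arbitrary analytic curves (`Curve` of the starting file `SmallDiscs` of this problem): each is
given by a lattice `Ω` with arbitrary complex invariants and by analytic functions `p_1, …, p_r` on a connected open set `U`
with values outside `Ω`, such that no nontrivial combination of them with coefficients in `End(ℂ / Ω)` is constant. Nothing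
needs to be algebraic. The elliptic Schanuel conjecture says that at least `2 r` of the `3 r` numbers `p_i(t), ℘(p_i(t)),
ζ(p_i(t))` together with `g₂, g₃` are algebraically independent at the points `t` where the `p_i(t)` are linearly
independent.

We prove, for `2 r` of these functions which depend only on the curve, and outside ONE set `E` of complex numbers of Hausdorff
dimension `0` (for all the curves, number fields, degrees and scales): for every `x ∉ E` of `U` and ALL algebraic numbers `t`
in a number field which are close to `x` (`|t - x| ≤ T ^ (-ω)`, where `T` bounds the height of `t` and `ω > 0` is arbitrary),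
the `2 r` numbers at `t` satisfy no relation of bounded degree with coefficients of polynomial size, even approximately;
the coefficients may be polynomials in arbitrary constants `ξ_1, …, ξ_g` fixed in advance (for instance invariants, periods
and quasi-periods). In particular nonzero integral polynomials `P` of degree at most `d` and of height at most `T ^ A` have
values of absolute value greater than `T ^ (-B)` at these numbers. For real `x ∉ E` this is true for all large convergents
of the continued fraction of `x`.

For linear functions `p_i(t) = b_i t` and all `2 r` values `℘`, `ζ` such a theorem is in the starting file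
`MP_06aafe_nt.ApproximationsOfAllNumbers`.

Proof: the `2 r` functions are algebraically independent over `ℂ(t)` (Ax's theorem, `Pool.Agent.Y776.Cv.fix_sub`); the levels
of the library give, on compact sets, at most `C T ^ ε` exceptional points of height `T`, for every `ε > 0`, and so a limsup
set of dimension `0` (`Pool.Agent.X39.Near`, helper39).
-/

set_option autoImplicit false

open NumberField

namespace Pool.Agent.Results.MP_2ad15a_nt.ApproximationsOfAllNumbers

open Pool.Agent.X39.Near (Size)
open Pool.Agent.J6H45.RT (NoRelation)
open Pool.Agent.Results.MP_2ad15a_nt.SmallDiscs (Curve Name value)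

/-- **Theorem.** Let `ξ_1, …, ξ_g` be complex numbers, and let countably many curves `(U_i, L_i, p_i)` be given. There are
`2 r_i` different functions among the `3 r_i` functions of the `i`-th curve, for each `i`, and a set `E` of complex numbers of
Hausdorff dimension `0`, such that for all `i`: for all `x ∈ U_i` outside `E`, all number fields `F` with an embedding `ι` in
`ℂ`, all `d`, `A` and `ω > 0` there are `B`, `T₁` such that for all `T ≥ T₁` and all `t ∈ F`, quotients of integers with
conjugates at most `T`, with `|ι t - x| ≤ T ^ (-ω)` there is no relation between the `2 r_i` numbers at `ι t`; and for all real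
irrational `x ∈ U_i` outside `E` and all `d`, `A` there is `B` such that there is no relation at the large convergents of `x`,
`T` their denominator. -/
theorem result {g : ℕ} (ξ : Fin g → ℂ) {I : Type} [Countable I] (r : I → ℕ) (U : I → Set ℂ) (L : I → PeriodPair)
    (p : ∀ i, Fin (r i) → ℂ → ℂ) (hU : ∀ i, Curve (U i) (L i) (p i)) :
    ∃ (e : ∀ i, Fin (2 * r i) → Name (r i)) (E : Set ℂ), (∀ i, Function.Injective (e i)) ∧ dimH E = 0 ∧ ∀ i,
      (∀ x ∈ U i, x ∉ E → ∀ (F : Type) [Field F] [NumberField F] (ι : F →+* ℂ) (d A : ℕ) (ω : ℝ), 0 < ω →
        ∃ B T₁ : ℝ, ∀ T : ℝ, T₁ ≤ T → ∀ t : F, Size F T t → ‖ι t - x‖ ≤ T ^ (-ω) →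
          NoRelation (fun k => value (L i) (p i) (ι t) (e i k)) ξ F ι d A B T) ∧
      ∀ x : ℝ, Irrational x → (x : ℂ) ∈ U i → (x : ℂ) ∉ E → ∀ d A : ℕ, ∃ (B : ℝ) (n₀ : ℕ), ∀ l : ℕ, n₀ ≤ l →
        NoRelation (fun k => value (L i) (p i) ((x.convergent l : ℚ) : ℂ) (e i k)) ξ ℚ (algebraMap ℚ ℂ) d A B
          (x.convergent l).den := by
  choose e he han hL using fun i => Pool.Agent.J6H45.RT.elliptic_loc (hU i)
  obtain ⟨E, hE, h⟩ := Pool.Agent.J6H45.RT.near_countable ξ (fun i => Fin (2 * r i)) U (fun i => (hU i).isOpen)
    (fun i k z => value (L i) (p i) z (e i k)) (fun i k t ht => han i k t ht) (fun i t ht => hL i t ht)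
  exact ⟨e, E, he, hE, h⟩

end Pool.Agent.Results.MP_2ad15a_nt.ApproximationsOfAllNumbers
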