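import Pool.Agent.J6H76.EW.Any

/-!
# The elliptic analogue of Schanuel's conjecture for EVERY tuple in a short window and ALL elliptic logarithms, up to the
# transcendence degree of the periods

Let `Λ` be a lattice with rational invariants. Let `ξ` be an algebraic number of degree at most `m` and of height at most a
power of `|ξ|` (for instance a positive integer) and `n_1, …, n_k` ANY distinct positive integers up to `H`. Let `l_i` be ANY
elliptic logarithms of the points with the abscissas `ξ + n_i`, and `Γ = Λ + ∑ ℤ l_i` the group of all elliptic logarithms of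
all the points generated by them. Let `s` be such that the periods and quasi-periods of `Λ` are algebraic over a field
generated by `s` numbers; so `s = 4` is always possible, and it is classical that `s = 2` is possible for complex
multiplication. We prove: if
`|ξ| ≥ (H + 2)^E`, then for all `p_1, …, p_n` in `Γ` which are linearly independent over `ℤ` modulo `Λ`, some `2 n - s` of
the `2 n` numbers `p_j`, `ζ(p_j)` satisfy no relation of degree at most `δ` in each of them over any number field of degree at
most `D`. No tuples and no logarithms are excluded; `E` does not depend on `H`, `ξ`, the tuple, `n` and the points.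

For the modular function a theorem of this kind (for every tuple of integral invariants in a short window) is in the starting
library; this is the analogue for elliptic logarithms, and for all the points of the groups. The case of the elliptic
logarithms of least absolute value, without the loss of `s`, is the theorem `EveryTuple`.

Proof. For the logarithms `l_i⁰` given by the power series at infinity the numbers `l_i⁰`, `ζ(l_i⁰)` have no relations of large
degree. The `p_j`, `ζ(p_j)` are integral combinations of them, with a matrix of rank `n`, up to periods, quasi-periods and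
numbers of the field of the coordinates. If every `2 n - s` of the `2 n` numbers had a relation, the powers of the space spanned
by `1`, the `p_j`, the `ζ(p_j)`, the periods and the quasi-periods would have dimensions of growth less than `2 n`
(`Pool.Agent.Y124.TH.core_abs`).
-/

set_option autoImplicit false

open scoped PeriodPair

namespace Pool.Agent.Results.MP_2ad15a_nt.EveryGroup

/-- The Weierstrass zeta function `ζ(z) = ∑ (1/(z-l) + 1/l + z/l²)`, the sum over the lattice (the summand of `l = 0` is
`1/z`, since `1/0 = 0` in Lean). -/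
noncomputable def zeta (Λ : PeriodPair) (z : ℂ) : ℂ := ∑' l : Λ.lattice, (1 / (z - l) + 1 / l + z / l ^ 2)

/-- `ξ` is a root of a nonzero integral polynomial of degree at most `m` with coefficients at most `|ξ| ^ A`. -/
def Height (m A : ℕ) (ξ : ℂ) : Prop :=
  ∃ P : Polynomial ℤ, P ≠ 0 ∧ P.natDegree ≤ m ∧ (∀ j, |(P.coeff j : ℝ)| ≤ ‖ξ‖ ^ A) ∧ Polynomial.aeval ξ P = 0

/-- The periods and the half quasi-periods `ω₁`, `ω₂`, `ζ(ω₁/2)`, `ζ(ω₂/2)`. -/
noncomputable def periods (Λ : PeriodPair) : Fin 4 → ℂ :=
  ![Λ.ω₁, Λ.ω₂, zeta Λ (Λ.ω₁ / 2), zeta Λ (Λ.ω₂ / 2)]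

/-- The numbers `p_j`, `ζ(p_j)`. -/
noncomputable def logarithms (Λ : PeriodPair) {n : ℕ} (p : Fin n → ℂ) : Fin n × Fin 2 → ℂ :=
  fun a => ![p a.1, zeta Λ (p a.1)] a.2

/-- Some `r` of the numbers `x_i` (with different indices) satisfy no nonzero polynomial relation of degree at most `δ` in each
unknown with coefficients in any number field of degree at most `D`. -/
def TrdegGe {ι : Type} (r δ D : ℕ) (x : ι → ℂ) : Prop :=
  ∃ σ : Fin r → ι, Function.Injective σ ∧ ∀ K : IntermediateField ℚ ℂ, FiniteDimensional ℚ K → Module.finrank ℚ K ≤ D →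
    ∀ P : MvPolynomial (Fin r) K, (∀ i, P.degreeOf i ≤ δ) → MvPolynomial.aeval (fun i => x (σ i)) P = 0 → P = 0

/-- The `p_j` belong to the group `Λ + ∑ ℤ l_i`. -/
def InGroup (Λ : PeriodPair) {k n : ℕ} (l : Fin k → ℂ) (p : Fin n → ℂ) : Prop :=
  ∀ j, ∃ B : Fin k → ℤ, p j - ∑ i, (B i : ℂ) * l i ∈ Λ.lattice

/-- The `p_j` are linearly independent over `ℤ` modulo `Λ`. -/
def Independent (Λ : PeriodPair) {n : ℕ} (p : Fin n → ℂ) : Prop :=
  ∀ c : Fin n → ℤ, ∑ j, (c j : ℂ) * p j ∈ Λ.lattice → c = 0

/-- Let `Λ` be a lattice with rational invariants and let `θ_1, …, θ_s` be complex numbers such that the `periods` are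
algebraic over `ℚ(θ_1, …, θ_s)`. For all `k`, `m`, `A`, `δ`, `D` there is `E` such that for all `H`, all complex `ξ` with
`|ξ| ≥ (H + 2) ^ E` and of height `(m, A)`, all distinct `n_1, …, n_k` in `[1, H]`, all `l_i` with `℘(l_i) = ξ + n_i`, and all
`p_1, …, p_n` (`n` arbitrary) in the group `Λ + ∑ ℤ l_i` which are independent modulo `Λ`, some `2 n - s` of the `2 n` numbers
`p_j`, `ζ(p_j)` satisfy no relation of degree at most `δ` in each unknown over number fields of degree at most `D`. -/
theorem result (Λ : PeriodPair) (a b : ℚ) (ha : Λ.g₂ = a) (hb : Λ.g₃ = b) {s : ℕ} (θ : Fin s → ℂ)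
    (hθ : ∀ i, IsAlgebraic (Algebra.adjoin ℚ (Set.range θ)) (periods Λ i)) (k m A δ D : ℕ) :
    ∃ E : ℕ, ∀ (H : ℕ) (ξ : ℂ), ((H : ℝ) + 2) ^ E ≤ ‖ξ‖ → Height m A ξ →
      ∀ N : Fin k → ℕ, Function.Injective N → (∀ i, 1 ≤ N i ∧ N i ≤ H) →
      ∀ l : Fin k → ℂ, (∀ i, l i ∉ Λ.lattice ∧ ℘[Λ] (l i) = ξ + N i) →
      ∀ (n : ℕ) (p : Fin n → ℂ), InGroup Λ l p → Independent Λ p → TrdegGe (2 * n - s) δ D (logarithms Λ p) := by
  obtain ⟨E, hE⟩ := Pool.Agent.J6H76.EW.any_all Λ a b ha hb θ hθ k m A δ D
  refine ⟨E, fun H ξ hξ hht N hN hNH l hl n p hp hind => ?_⟩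
  choose B hB using hp
  obtain ⟨σ, hσ, h⟩ := hE H ξ hξ hht N hN hNH l hl n p B hB hind
  exact ⟨σ, hσ, fun K hK hKd P hP h0 => (h K hK hKd).mv P hP h0⟩

end Pool.Agent.Results.MP_2ad15a_nt.EveryGroup
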