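import Pool.Agent.J6H76.EW.Every

/-!
# The elliptic analogue of Schanuel's conjecture for EVERY tuple of points with abscissas in a short window

Let `Λ` be a lattice with rational invariants `g₂`, `g₃`. Let `ξ` be an algebraic number of degree at most `m` and of height
at most a power of `|ξ|` (for instance a positive integer), and let `n_1, …, n_k` be ANY distinct positive integers up to `H`.
Let `l_i` be an elliptic logarithm of least absolute value of a point with the abscissa `ξ + n_i`, that is `℘(l_i) = ξ + n_i`
and `|l_i|` is minimal. We prove that for all `p_1, …, p_n` in the group `∑ ℤ l_i`, outside of `Λ` and linearly independent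
over `ℚ`, every polynomial relation of degree at most `δ` over a number field of degree at most `δ` between the `4 n` numbers
`p_j`, `ζ(p_j)`, `℘(p_j)`, `℘'(p_j)` is an identity in the `2 n` numbers `p_j`, `ζ(p_j)`, as soon as
`|ξ| ≥ (H + 2)^((δ + 2)^C)`, where `C` depends only on `Λ`, `k`, `m` and the power. So the bound `2 n` of the conjecture
holds in degree `δ` for all these families of points of all these groups, with no exceptions, and `δ` may be as large as a
fixed power of `log |ξ| / log (H + 2)`; for bounded `H` it tends to infinity with `ξ`.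

The starting results of this pool on elliptic logarithms at integers are for almost all tuples, or they have a bounded number
of exceptional integers in each window (which depend on the given constants, for instance on the periods).

Proof. With `s² = 1 / ξ` the logarithm of least absolute value and its zeta value are, up to a common sign, `s U(s²) / 2` and
`- V(s²) / (2 s)`, where `U`, `V` are the power series (G-functions) of the integrals of the first and second kind at infinity
shifted by `n_i`. No constant of integration occurs, and the values of these power series satisfy no relations of degree `δ`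
over number fields (`Pool.Agent.R351.GD`). By the addition theorem the `ζ(p_j)` are integral combinations of the `ζ(l_i)` up to
a number of the field of the coordinates.
-/

set_option autoImplicit false

open scoped PeriodPair

namespace Pool.Agent.Results.MP_2ad15a_nt.EveryTuple

/-- The Weierstrass zeta function `ζ(z) = ∑ (1/(z-l) + 1/l + z/l²)`, the sum over the lattice (the summand of `l = 0` is
`1/z`, since `1/0 = 0` in Lean). -/
noncomputable def zeta (Λ : PeriodPair) (z : ℂ) : ℂ := ∑' l : Λ.lattice, (1 / (z - l) + 1 / l + z / l ^ 2)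

/-- `ξ` is a root of a nonzero integral polynomial of degree at most `m` with coefficients at most `|ξ| ^ A`. -/
def Height (m A : ℕ) (ξ : ℂ) : Prop :=
  ∃ P : Polynomial ℤ, P ≠ 0 ∧ P.natDegree ≤ m ∧ (∀ j, |(P.coeff j : ℝ)| ≤ ‖ξ‖ ^ A) ∧ Polynomial.aeval ξ P = 0

/-- `l` is an elliptic logarithm of least absolute value of the points with abscissa `α`. -/
def LeastLog (Λ : PeriodPair) (α l : ℂ) : Prop :=
  l ∉ Λ.lattice ∧ ℘[Λ] l = α ∧ ∀ ω ∈ Λ.lattice, ‖l‖ ≤ ‖l + ω‖

/-- The numbers `p_j`, `ζ(p_j)`. -/
noncomputable def logarithms (Λ : PeriodPair) {n : ℕ} (p : Fin n → ℂ) : Fin n × Fin 2 → ℂ :=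
  fun a => ![p a.1, zeta Λ (p a.1)] a.2

/-- The numbers `℘(p_j)`, `℘'(p_j)`. -/
noncomputable def points (Λ : PeriodPair) {n : ℕ} (p : Fin n → ℂ) : Fin n × Fin 2 → ℂ :=
  fun a => ![℘[Λ] (p a.1), ℘'[Λ] (p a.1)] a.2

/-- Every polynomial relation of degree `≤ δ` over a number field of degree `≤ δ` between the `logarithms` and the `points`
of `p` is an identity in the logarithms. -/
def FreeOverPoints (Λ : PeriodPair) (δ : ℕ) {n : ℕ} (p : Fin n → ℂ) : Prop :=
  ∀ L : IntermediateField ℚ ℂ, FiniteDimensional ℚ L → Module.finrank ℚ L ≤ δ →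
  ∀ P : MvPolynomial ((Fin n × Fin 2) ⊕ (Fin n × Fin 2)) L, P.totalDegree ≤ δ →
  MvPolynomial.aeval (Sum.elim (logarithms Λ p) (points Λ p)) P = 0 →
  ∀ v : Fin n × Fin 2 → ℂ, MvPolynomial.aeval (Sum.elim v (points Λ p)) P = 0

/-- The `p_j` are outside of the lattice and belong to the group `∑ ℤ l_i`. -/
def InGroup (Λ : PeriodPair) {k n : ℕ} (l : Fin k → ℂ) (p : Fin n → ℂ) : Prop :=
  ∀ j, p j ∉ Λ.lattice ∧ ∃ B : Fin k → ℤ, p j = ∑ i, (B i : ℂ) * l i

/-- Let `Λ` be a lattice with rational invariants. For all `k`, `m`, `A` there is `C` such that for all `δ`, `H`, all complex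
`ξ` with `|ξ| ≥ (H + 2) ^ ((δ + 2) ^ C)` and of height `(m, A)`, all distinct `n_1, …, n_k` in `[1, H]`, all logarithms `l_i`
of least absolute value of the `ξ + n_i`, and all `p_1, …, p_n` (`n` arbitrary) outside of `Λ` in the group `∑ ℤ l_i` which
are linearly independent over `ℚ`, the `p_j` are free over their points in degree `δ`. -/
theorem result (Λ : PeriodPair) (a b : ℚ) (ha : Λ.g₂ = a) (hb : Λ.g₃ = b) (k m A : ℕ) :
    ∃ C : ℕ, ∀ (δ H : ℕ) (ξ : ℂ), ((H : ℝ) + 2) ^ (δ + 2) ^ C ≤ ‖ξ‖ → Height m A ξ →
      ∀ N : Fin k → ℕ, Function.Injective N → (∀ i, 1 ≤ N i ∧ N i ≤ H) →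
      ∀ l : Fin k → ℂ, (∀ i, LeastLog Λ (ξ + N i) (l i)) →
      ∀ (n : ℕ) (p : Fin n → ℂ), InGroup Λ l p → LinearIndependent ℚ p → FreeOverPoints Λ δ p := by
  obtain ⟨C, hC⟩ := Pool.Agent.J6H76.EW.every Λ a b ha hb k m A
  refine ⟨C, fun δ H ξ hξ hht N hN hNH l hl n p hp hind => ?_⟩
  choose hp1 B hB using hp
  refine hC δ H ξ hξ hht N hN hNH l hl n p B hB hp1 fun c hc => ?_
  have h1 := Fintype.linearIndependent_iff.1 hind (fun j => (c j : ℚ)) (by
    rw [← hc]
    refine Finset.sum_congr rfl fun j _ => ?_
    rw [Rat.smul_def]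
    push_cast
    ring)
  funext j
  exact_mod_cast h1 j

end Pool.Agent.Results.MP_2ad15a_nt.EveryTuple
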